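import Mathlib
import Pool.Agent.Y895.SQ.S11
import Pool.Agent.Y895.PS.R4

set_option autoImplicit false

/-!
# Primes among random numbers that share their leading digits with `8 d ^ 2 + 1`

Let `d n + b n √8 = (3 + √8) ^ n`, so that `(d n, b n)` are the solutions of `d ^ 2 - 8 b ^ 2 = 1`,
and let `P n = 8 d n ^ 2 + 1 = 64 b n ^ 2 + 9`.  Fix a base `g ≥ 2`.  For a sequence `m` and a real
number `t` in `[0, 1)` replace the last `m n` base `g` digits of `P n` by the first `m n` base `g`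
digits of `t`; let `N g m t n` be the result.  For a set `S` let `M g m S t x` be the number of
`n ≤ x` in `S` for which `N g m t n` is prime, and let `V S x` be the sum of `1 / n` over the
positive integers `n ≤ x` in `S`.

We prove the following for every eventually monotone sequence `m` for which the upper part
`k = ⌊P n / g ^ m n⌋` tends to infinity.

* A positive proportion of prescribed digits: for every `ε` in `(0, 1)` there is `δ > 0`, which does
  not depend on `g`, such that, if `log k ≤ 2 δ n` for large `n` and `m` grows at least linearly,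
  then for every set `S` and almost every `t` there are infinitely many `n` in `S` with `N g m t n`
  prime if and only if `V S x → ∞`, and in this case their number lies between
  `(1 - ε) V S x / (2 log (3 + √8))` and `(1 + ε) V S x / (2 log (3 + √8))` for large `x`.
* If `log k = o(n)` and `m` grows at least linearly, then for every set `S` with `V S x → ∞` and
  almost every `t` the number of primes is asymptotic to `V S x / (2 log (3 + √8))`.
* If `log k ≤ 2 κ n / log n` for large `n`, where `κ` is a positive constant depending on `g` only,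
  then the same dichotomy holds, and the number of primes is `log x / (2 log (3 + √8))`, and
  `V S x / (2 log (3 + √8))` for every set `S` with `V S x → ∞`, up to a square root error term, for
  almost every `t`.
-/

namespace Pool.Agent.Results.MP_f53aaa_nt.LeadingDigits

open Filter Topology MeasureTheory Asymptotics

/-- The pairs `(d n, b n)` with `d n + b n √8 = (3 + √8) ^ n`. -/
def pell : ℕ → ℕ × ℕ
  | 0 => (1, 0)
  | n + 1 => (3 * (pell n).1 + 8 * (pell n).2, (pell n).1 + 3 * (pell n).2)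

/-- The numbers `8 d n ^ 2 + 1`. -/
def P (n : ℕ) : ℕ := 8 * (pell n).1 ^ 2 + 1

/-- `P n` with the last `m n` base `g` digits replaced by the first `m n` digits of `t`. -/
noncomputable def N (g : ℕ) (m : ℕ → ℕ) (t : ℝ) (n : ℕ) : ℕ :=
  g ^ m n * (P n / g ^ m n) + ⌊(g : ℝ) ^ m n * t⌋₊

open Classical in
/-- The number of `n ≤ x` in the set `S` for which `N g m t n` is prime. -/
noncomputable def M (g : ℕ) (m : ℕ → ℕ) (S : Set ℕ) (t : ℝ) (x : ℕ) : ℕ :=
  ((Finset.range (x + 1)).filter (fun n => n ∈ S ∧ (N g m t n).Prime)).card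

open Classical in
/-- The sum of `1 / n` over the positive integers `n ≤ x` in the set `S`. -/
noncomputable def V (S : Set ℕ) (x : ℕ) : ℝ :=
  ∑ n ∈ (Finset.Icc 1 x).filter (fun n => n ∈ S), 1 / (n : ℝ)

/-- A number of free digits which leaves about `κ n / (log g log n)` digits prescribed. -/
noncomputable def free (g : ℕ) (κ : ℝ) (n : ℕ) : ℕ :=
  ⌊(n * Real.log ((3 + Real.sqrt 8) ^ 2) - κ * n / Real.log n) / Real.log g⌋₊

/-- A number of free digits which leaves about `δ n / log g` digits prescribed. -/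
noncomputable def most (g : ℕ) (δ : ℝ) (n : ℕ) : ℕ :=
  ⌊(n * Real.log ((3 + Real.sqrt 8) ^ 2) - δ * n) / Real.log g⌋₊

/-- The sequence grows at least linearly, up to a bounded amount. -/
def Linear (m : ℕ → ℕ) : Prop := ∃ σ D : ℝ, 0 < σ ∧ ∀ᶠ p : ℕ in atTop, ∀ q ≥ p,
  σ * ((q : ℝ) - p) - D ≤ (m q : ℝ) - m p

lemma V_eq (S : Set ℕ) (x : ℕ) : V S x = Pool.Agent.Y895.SQ.VN S x := by
  classical
  unfold V Pool.Agent.Y895.SQ.VN Pool.Agent.Y895.SQ.wn
  rw [Finset.sum_filter]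
  have e1 : Finset.range (x + 1) = insert 0 (Finset.Icc 1 x) := by
    ext p
    simp only [Finset.mem_range, Finset.mem_insert, Finset.mem_Icc]
    omega
  rw [e1, Finset.sum_insert (by simp)]
  simp

lemma M_eq (g : ℕ) (m : ℕ → ℕ) (S : Set ℕ) (t : ℝ) (x : ℕ) :
    M g m S t x = Pool.Agent.Y895.SQ.cN S (N g m t) x := by
  classical
  unfold M Pool.Agent.Y895.SQ.cN
  rfl

lemma pell_eq (n : ℕ) : (pell n).1 ^ 2 = 8 * (pell n).2 ^ 2 + 1 := by
  induction n with
  | zero => rfl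
  | succ n ih =>
    show (3 * (pell n).1 + 8 * (pell n).2) ^ 2 = 8 * ((pell n).1 + 3 * (pell n).2) ^ 2 + 1
    have e : (3 * (pell n).1 + 8 * (pell n).2) ^ 2 = 8 * (pell n).1 ^ 2 + (pell n).1 ^ 2 +
        48 * ((pell n).1 * (pell n).2) + 64 * (pell n).2 ^ 2 := by ring
    have e2 : 8 * ((pell n).1 + 3 * (pell n).2) ^ 2 = 8 * (pell n).1 ^ 2 +
        48 * ((pell n).1 * (pell n).2) + 72 * (pell n).2 ^ 2 := by ring
    rw [e, e2]
    omega

lemma pell_pow (n : ℕ) : ((pell n).1 : ℝ) + (pell n).2 * Real.sqrt 8 = (3 + Real.sqrt 8) ^ n := by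
  have h8 : Real.sqrt 8 * Real.sqrt 8 = 8 := Real.mul_self_sqrt (by norm_num)
  induction n with
  | zero => simp [pell]
  | succ n ih =>
    rw [pow_succ, ← ih]
    show (((3 * (pell n).1 + 8 * (pell n).2 : ℕ) : ℝ)) +
      ((((pell n).1 + 3 * (pell n).2 : ℕ) : ℝ)) * Real.sqrt 8 = _
    push_cast
    have : ((pell n).1 + (pell n).2 * Real.sqrt 8) * (3 + Real.sqrt 8) =
        3 * ((pell n).1 : ℝ) + (pell n).2 * (Real.sqrt 8 * Real.sqrt 8) +
        (((pell n).1 : ℝ) + 3 * (pell n).2) * Real.sqrt 8 := by ring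
    rw [this, h8]
    ring

lemma P_bounds (n : ℕ) : 2 * ((3 + Real.sqrt 8) ^ 2) ^ n ≤ P n ∧
    (P n : ℝ) ≤ 9 * ((3 + Real.sqrt 8) ^ 2) ^ n := by
  have h8 : Real.sqrt 8 * Real.sqrt 8 = 8 := Real.mul_self_sqrt (by norm_num)
  have hs0 : 0 ≤ Real.sqrt 8 := Real.sqrt_nonneg 8
  have h1 := pell_pow n
  have h2 : ((pell n).1 : ℝ) ^ 2 = 8 * ((pell n).2 : ℝ) ^ 2 + 1 := by exact_mod_cast pell_eq n
  set x := ((pell n).1 : ℝ) with hx
  set y := ((pell n).2 : ℝ) with hy
  have hx0 : 0 ≤ x := Nat.cast_nonneg _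
  have hy0 : 0 ≤ y := Nat.cast_nonneg _
  have e : ((3 + Real.sqrt 8) ^ 2) ^ n = (x + y * Real.sqrt 8) ^ 2 := by
    rw [h1, ← pow_mul, ← pow_mul, mul_comm]
  have hP : (P n : ℝ) = 8 * x ^ 2 + 1 := by
    unfold P
    push_cast
    rw [hx]
  have e2 : (y * Real.sqrt 8) ^ 2 = 8 * y ^ 2 := by
    calc (y * Real.sqrt 8) ^ 2 = y ^ 2 * (Real.sqrt 8 * Real.sqrt 8) := by ring
      _ = _ := by rw [h8]; ring
  have h3 : 0 ≤ y * Real.sqrt 8 := by positivity
  have h4 : y * Real.sqrt 8 ≤ x := by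
    apply le_of_sq_le_sq _ hx0
    rw [e2]
    linarith
  have hx1 : 1 ≤ x ^ 2 := by
    rw [h2]
    nlinarith [sq_nonneg y]
  rw [e, hP]
  constructor
  · have h5 : (x + y * Real.sqrt 8) ^ 2 ≤ (2 * x) ^ 2 :=
      pow_le_pow_left₀ (by positivity) (by linarith) 2
    nlinarith
  · have h5 : x ^ 2 ≤ (x + y * Real.sqrt 8) ^ 2 := pow_le_pow_left₀ hx0 (by linarith) 2
    nlinarith

/-- `(d n, b n) = pell n` solve the Pell equation and `P n = 8 d n ^ 2 + 1 = 64 b n ^ 2 + 9`.  The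
leading digits are those of `P n`.  With a small positive proportion of prescribed digits the
dichotomy and the law with a constant close to the right one hold for almost every `t` and every set
`S`, with `o(n)` prescribed digits the asymptotic law, and with `κ n / log n` prescribed digits the
law with a square root error term. -/
theorem result :
    (∀ n, ((pell n).1 : ℝ) + (pell n).2 * Real.sqrt 8 = (3 + Real.sqrt 8) ^ n ∧
      (pell n).1 ^ 2 = 8 * (pell n).2 ^ 2 + 1 ∧ P n = 8 * (pell n).1 ^ 2 + 1 ∧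
      P n = 64 * (pell n).2 ^ 2 + 9) ∧
    (∀ g ≥ 2, ∀ (m : ℕ → ℕ) (t : ℝ) (n : ℕ), 0 ≤ t → t < 1 →
      N g m t n / g ^ m n = P n / g ^ m n) ∧
    (∀ ε : ℝ, 0 < ε → ε < 1 → ∃ δ : ℝ, 0 < δ ∧ ∀ g ≥ 2,
      ((∀ᶠ n in atTop, most g δ n ≤ most g δ (n + 1)) ∧ Linear (most g δ) ∧
        Tendsto (fun n => P n / g ^ most g δ n) atTop atTop ∧
        ∀ᶠ n : ℕ in atTop, Real.log (P n / g ^ most g δ n : ℕ) ≤ 2 * δ * n) ∧
      ∀ m : ℕ → ℕ, (∀ᶠ n in atTop, m n ≤ m (n + 1)) →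
        Tendsto (fun n => P n / g ^ m n) atTop atTop →
        (∀ᶠ n : ℕ in atTop, Real.log (P n / g ^ m n : ℕ) ≤ 2 * δ * n) → Linear m →
          ∀ S : Set ℕ, ∀ᵐ t : ℝ, 0 ≤ t → t < 1 →
            ({n : ℕ | n ∈ S ∧ (N g m t n).Prime}.Infinite ↔ Tendsto (V S) atTop atTop) ∧
            (Tendsto (V S) atTop atTop → ∀ᶠ x : ℕ in atTop,
              (1 - ε) / (2 * Real.log (3 + Real.sqrt 8)) * V S x ≤ M g m S t x ∧
              (M g m S t x : ℝ) ≤ (1 + ε) / (2 * Real.log (3 + Real.sqrt 8)) * V S x)) ∧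
    (∀ g ≥ 2, ∀ m : ℕ → ℕ, (∀ᶠ n in atTop, m n ≤ m (n + 1)) →
      Tendsto (fun n => P n / g ^ m n) atTop atTop →
      (∀ δ : ℝ, 0 < δ → ∀ᶠ n : ℕ in atTop, Real.log (P n / g ^ m n : ℕ) ≤ δ * n) → Linear m →
        ∀ S : Set ℕ, Tendsto (V S) atTop atTop → ∀ᵐ t : ℝ, 0 ≤ t → t < 1 →
          Tendsto (fun x : ℕ => (M g m S t x : ℝ) / V S x) atTop
            (𝓝 (1 / (2 * Real.log (3 + Real.sqrt 8))))) ∧
    ∀ g ≥ 2, ∃ κ : ℝ, 0 < κ ∧
      ((∀ᶠ n in atTop, free g κ n ≤ free g κ (n + 1)) ∧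
        Tendsto (fun n => P n / g ^ free g κ n) atTop atTop ∧
        ∀ᶠ n : ℕ in atTop, Real.log (P n / g ^ free g κ n : ℕ) ≤ 2 * κ * n / Real.log n) ∧
      ∀ m : ℕ → ℕ, (∀ᶠ n in atTop, m n ≤ m (n + 1)) →
        Tendsto (fun n => P n / g ^ m n) atTop atTop →
        (∀ᶠ n : ℕ in atTop, Real.log (P n / g ^ m n : ℕ) ≤ 2 * κ * n / Real.log n) →
          (∀ S : Set ℕ, ∀ᵐ t : ℝ, 0 ≤ t → t < 1 →
            ({n : ℕ | n ∈ S ∧ (N g m t n).Prime}.Infinite ↔ Tendsto (V S) atTop atTop)) ∧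
          (∀ᵐ t : ℝ, 0 ≤ t → t < 1 →
            (fun x : ℕ => (M g m Set.univ t x : ℝ) -
              1 / (2 * Real.log (3 + Real.sqrt 8)) * Real.log x) =O[atTop]
            (fun x : ℕ => Real.sqrt (Real.log x) * (Real.log (Real.log x)) ^ ((5 : ℝ) / 2))) ∧
          (∀ S : Set ℕ, Tendsto (V S) atTop atTop → ∀ᵐ t : ℝ, 0 ≤ t → t < 1 →
            (fun x : ℕ => (M g m S t x : ℝ) -
              1 / (2 * Real.log (3 + Real.sqrt 8)) * V S x) =O[atTop]
            (fun x : ℕ => Real.sqrt (V S x * Real.log (Real.log x)) *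
              (Real.log (V S x * Real.log (Real.log x))) ^ 2)) := by
  have hV : ∀ S, V S = Pool.Agent.Y895.SQ.VN S := fun S => funext fun n => V_eq S n
  have hα : 1 < (3 + Real.sqrt 8) ^ 2 := by
    have : 0 ≤ Real.sqrt 8 := Real.sqrt_nonneg 8
    nlinarith
  have hlog2 : Real.log ((3 + Real.sqrt 8) ^ 2) = 2 * Real.log (3 + Real.sqrt 8) := by
    rw [Real.log_pow]
    norm_num
  have hlα : 0 < Real.log ((3 + Real.sqrt 8) ^ 2) := Real.log_pos hα
  have hPb : ∀ᶠ n : ℕ in atTop, 2 * ((3 + Real.sqrt 8) ^ 2) ^ n ≤ P n ∧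
      (P n : ℝ) ≤ 9 * ((3 + Real.sqrt 8) ^ 2) ^ n := Eventually.of_forall P_bounds
  have hasy : ∀ ε : ℝ, 0 < ε → ε < 1 → ∃ δ : ℝ, 0 < δ ∧
      2 * δ < Real.log ((3 + Real.sqrt 8) ^ 2) ∧ ∀ g ≥ 2,
      ∀ m : ℕ → ℕ, (∀ᶠ n in atTop, m n ≤ m (n + 1)) →
        Tendsto (fun n => P n / g ^ m n) atTop atTop →
        (∀ᶠ n : ℕ in atTop, Real.log (P n / g ^ m n : ℕ) ≤ 2 * δ * n) → Linear m →
          ∀ S : Set ℕ, ∀ᵐ t : ℝ, 0 ≤ t → t < 1 →
            ({n : ℕ | n ∈ S ∧ (N g m t n).Prime}.Infinite ↔ Tendsto (V S) atTop atTop) ∧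
            (Tendsto (V S) atTop atTop → ∀ᶠ x : ℕ in atTop,
              (1 - ε) / (2 * Real.log (3 + Real.sqrt 8)) * V S x ≤ M g m S t x ∧
              (M g m S t x : ℝ) ≤ (1 + ε) / (2 * Real.log (3 + Real.sqrt 8)) * V S x) := by
    intro ε hε hε1
    obtain ⟨δ, hδ, hδ1, hord⟩ := Pool.Agent.Y895.PS.asy_prime_trunc ε hε hε1
    refine ⟨δ * Real.log ((3 + Real.sqrt 8) ^ 2) / 2, by positivity, by nlinarith,
      fun g hg m hm ht hk hlin S => ?_⟩
    have h1 := hord _ hα g hg 2 9 (by norm_num) (by norm_num) P m hPb hm hlin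
      (Pool.Agent.Y895.OL.pow_le_of_div hg ht) (by
        filter_upwards [hk] with p hp
        have e : 2 * (δ * Real.log ((3 + Real.sqrt 8) ^ 2) / 2) * p =
          δ * Real.log ((3 + Real.sqrt 8) ^ 2) * p := by ring
        rw [e] at hp
        exact hp) S
    filter_upwards [h1] with t ht h0 h1
    have h2 := ht h0 h1
    rw [hlog2] at h2
    rw [hV]
    simp only [M_eq]
    exact ⟨h2.inf, h2.law⟩
  refine ⟨fun n => ⟨pell_pow n, pell_eq n, rfl, ?_⟩,
    fun g hg m t p h0 h1 => Pool.Agent.Y895.PM.upper_digits hg h0 h1, fun ε hε hε1 => ?_,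
    fun g hg m hm ht hk hlin S hS => ?_, fun g hg => ?_⟩
  · have := pell_eq n
    unfold P
    omega
  · obtain ⟨δ, hδ, hδ1, h⟩ := hasy ε hε hε1
    refine ⟨δ, hδ, fun g hg => ⟨?_, h g hg⟩⟩
    obtain ⟨h1, h2⟩ := Pool.Agent.Y895.OL.dmost_spec hg hα hδ (by linarith)
      (by norm_num : (0 : ℝ) < 2) (by norm_num : (0 : ℝ) < 9) hPb
    exact ⟨Eventually.of_forall fun p => Pool.Agent.Y895.OL.dmost_mono hg (by linarith) p,
      Pool.Agent.Y895.SQ.dmost_grow hg (by linarith), h1, h2⟩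
  · have h1 : ∀ k : ℕ, ∀ᵐ t : ℝ, 0 ≤ t → t < 1 → ∀ᶠ x : ℕ in atTop,
        (1 - 1 / ((k : ℝ) + 2)) * (1 / (2 * Real.log (3 + Real.sqrt 8))) * V S x ≤ M g m S t x ∧
        (M g m S t x : ℝ) ≤
          (1 + 1 / ((k : ℝ) + 2)) * (1 / (2 * Real.log (3 + Real.sqrt 8))) * V S x := by
      intro k
      obtain ⟨δ, hδ, hδ1, h⟩ := hasy (1 / ((k : ℝ) + 2)) (by positivity) (by
        rw [div_lt_one (by positivity)]
        have : (0 : ℝ) ≤ k := Nat.cast_nonneg k
        linarith)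
      filter_upwards [h g hg m hm ht (hk (2 * δ) (by positivity)) hlin S] with t ht h0 h1
      have h2 := (ht h0 h1).2 hS
      filter_upwards [h2] with x hx
      rw [mul_one_div, mul_one_div]
      exact hx
    filter_upwards [ae_all_iff.2 h1] with t ht h0 h1
    rw [← hlog2] at ht ⊢
    exact Pool.Agent.Y895.PS.lim_of_close (by positivity) hS fun k => ht k h0 h1
  · obtain ⟨κ, hκ, h⟩ := Pool.Agent.Y895.SQ.law_prime_trunc _ hα g hg
    refine ⟨κ / 2, by positivity, ?_, fun m hm ht hk => ?_⟩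
    · obtain ⟨h1, h2⟩ := Pool.Agent.Y895.FB.ffree_spec (κ := κ / 2) hg hα (by positivity)
        (by norm_num : (0 : ℝ) < 2) (by norm_num : (0 : ℝ) < 9) hPb
      exact ⟨Pool.Agent.Y895.FB.ffree_mono hg hα (by positivity), h1, h2⟩
    have e : 2 * (κ / 2) = κ := by ring
    rw [e] at hk
    have hpt : ∀ S : Set ℕ, ∀ᵐ t : ℝ, 0 ≤ t → t < 1 → Pool.Agent.Y895.SQ.PtN (N g m t)
        (1 / (2 * Real.log (3 + Real.sqrt 8))) S := by
      intro S
      rw [← hlog2]
      exact h 2 9 (by norm_num) (by norm_num) P m hPb hm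
        (Pool.Agent.Y895.OL.pow_le_of_div hg ht) hk S
    refine ⟨fun S => ?_, ?_, fun S hS => ?_⟩
    · rw [hV]
      filter_upwards [hpt S] with t ht h0 h1
      exact (ht h0 h1).inf
    · filter_upwards [hpt Set.univ] with t ht h0 h1
      obtain ⟨B, hB, h⟩ := (ht h0 h1).law Pool.Agent.Y895.SQ.VN_univ_tendsto
      simp only [M_eq]
      exact Pool.Agent.Y895.SQ.bigO_univ hB h
    · rw [hV] at hS ⊢
      filter_upwards [hpt S] with t ht h0 h1
      obtain ⟨B, hB, h⟩ := (ht h0 h1).law hS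
      simp only [M_eq]
      exact Pool.Agent.TH888.R.bigO_set hB hS h

end Pool.Agent.Results.MP_f53aaa_nt.LeadingDigits
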